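import Pool.Agent.Helper57.NX.Final

/-!
# MP_cb2931: Q2 for all lists of non-integer exponents, in every dense set of primes

For every set `A` of primes of positive relative upper density, all positive reals
`c 0, …, c (l-1)` none of which is a natural number, and every `N` there are `m ∈ A` and `n ≥ N`
with `m + ⌊n ^ c i⌋ ∈ A` for all `i`.
-/

set_option autoImplicit false

namespace Pool.Agent.Helper57.Kept.NonIntegerPowers

theorem result (A : Set ℕ) (hA : ∀ p ∈ A, p.Prime)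
    (hd : ∃ δ : ℝ, 0 < δ ∧ ∃ᶠ x : ℕ in Filter.atTop,
      δ * (Nat.primeCounting x : ℝ) ≤ ({p ∈ A | p ≤ x}.ncard : ℝ))
    (l : ℕ) (c : Fin l → ℝ) (hc : ∀ i, 0 < c i ∧ ∀ n : ℕ, c i ≠ n) (N : ℕ) :
    ∃ m ∈ A, ∃ n : ℕ, N ≤ n ∧ ∀ i, m + ⌊(n : ℝ) ^ c i⌋₊ ∈ A :=
  Pool.Agent.Helper57.NX.nx_final A hA hd l c hc N

end Pool.Agent.Helper57.Kept.NonIntegerPowers
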