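import Pool.Agent.Helper57.FP.Final

/-!
# MP_cb2931: Q2 for all exponents at most `1`, in every dense set of primes

For every set `A` of primes of positive relative upper density, all `c 0, …, c (l-1)` in `(0, 1]`
(rational or not) and every `N` there are `m ∈ A` and `n ≥ N` with `m + n ∈ A` and
`m + ⌊n ^ c i⌋ ∈ A` for all `i`.
-/

set_option autoImplicit false

namespace Pool.Agent.Helper57.Kept.SublinearPowers

open Pool.Agent.Helper57.FP

theorem result (A : Set ℕ) (hA : ∀ p ∈ A, p.Prime)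
    (hd : ∃ δ : ℝ, 0 < δ ∧ ∃ᶠ x : ℕ in Filter.atTop,
      δ * (Nat.primeCounting x : ℝ) ≤ ({p ∈ A | p ≤ x}.ncard : ℝ))
    (l : ℕ) (c : Fin l → ℝ) (hc : ∀ i, 0 < c i ∧ c i ≤ 1) (N : ℕ) :
    ∃ m ∈ A, ∃ n : ℕ, N ≤ n ∧ m + n ∈ A ∧ ∀ i, m + ⌊(n : ℝ) ^ c i⌋₊ ∈ A := by
  classical
  obtain ⟨δ, hδ, hfreq⟩ := hd
  apply relative A hA (δ * (1 / 4)) (by positivity) _ l c hc N
  apply (hfreq.and_eventually chebyshev_lower).mono
  rintro x ⟨hx, hx'⟩
  have h1 : {p ∈ A | p ≤ x}.ncard = ((Finset.range (x + 1)).filter (· ∈ A)).card := by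
    rw [← Set.ncard_coe_finset]
    congr 1
    ext p
    simp only [Set.mem_ofPred_eq, Finset.coe_filter, Finset.mem_range]
    constructor
    · rintro ⟨h, h'⟩; exact ⟨by omega, h⟩
    · rintro ⟨h, h'⟩; exact ⟨h', by omega⟩
  have h2 : ((Finset.range (x + 1)).filter Nat.Prime).card = Nat.primeCounting x := by
    rw [Nat.primeCounting, Nat.primeCounting', Nat.count_eq_card_filter_range]
  rw [h2] at hx'
  rw [← h1]
  calc δ * (1 / 4) * ((x : ℝ) / Real.log x) = δ * ((1 / 4) * ((x : ℝ) / Real.log x)) := by ring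
    _ ≤ δ * (Nat.primeCounting x : ℝ) := mul_le_mul_of_nonneg_left hx' hδ.le
    _ ≤ _ := hx

end Pool.Agent.Helper57.Kept.SublinearPowers
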